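import Pool.Agent.H840.AS.Stm
set_option autoImplicit false

/-!
# S_GRP: rational group elements and density
-/

open Complex Filter Topology Matrix

namespace Pool.Agent.H722.GRP

open Pool.Agent.H840.AS

abbrev M2 := Matrix (Fin 2) (Fin 2) ℂ
abbrev M2R := Matrix (Fin 2) (Fin 2) ℝ

/-- functoriality -/
def Funct (S : AddSubgroup (Fin 2 → ℂ) → Submodule ℝ M2) : Prop :=
  ∀ (Λ' Λ : AddSubgroup (Fin 2 → ℂ)) (g : M2),
      (∀ v ∈ Λ', g.mulVec v ∈ Λ) → ∀ Z ∈ S Λ', g * Z * g.conjTranspose ∈ S Λ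

/-- the group element -/
def Ux (x : Fin 7 → ℝ) : M2R := !![x 0, x 1; x 2, x 3]
/-- the translation -/
def Bx (x : Fin 7 → ℝ) : M2R := !![x 4, x 5; x 5, x 6]
/-- the adjugate -/
def Adx (x : Fin 7 → ℝ) : M2 := toC !![x 3, - x 1; - x 2, x 0]
/-- the new point of the Siegel space -/
def Hx (τ : M2) (x : Fin 7 → ℝ) : M2 := toC (Ux x) * τ * (toC (Ux x))ᵀ + toC (Bx x)

theorem common_den (q : Fin 7 → ℚ) : ∃ (N : ℕ) (z : Fin 7 → ℤ), 0 < N ∧
    ∀ i, (q i : ℚ) = z i / N := by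
  refine ⟨∏ i, (q i).den, fun i => (q i).num * ∏ j ∈ Finset.univ.erase i, ((q j).den : ℤ),
    Finset.prod_pos fun i _ => (q i).den_pos, fun i => ?_⟩
  have h1 : (∏ i, (q i).den) = (q i).den * ∏ j ∈ Finset.univ.erase i, (q j).den :=
    (Finset.mul_prod_erase Finset.univ _ (Finset.mem_univ i)).symm
  have h2 : (∏ j ∈ Finset.univ.erase i, ((q j).den : ℚ)) ≠ 0 :=
    Finset.prod_ne_zero_iff.2 fun j _ => by exact_mod_cast (q j).den_ne_zero
  have h3 : ((q i).den : ℚ) ≠ 0 := by exact_mod_cast (q i).den_ne_zero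
  rw [h1]
  push_cast
  rw [eq_div_iff (mul_ne_zero h3 h2)]
  have h4 : q i * (q i).den = (q i).num := Rat.mul_den_eq_num (q i)
  linear_combination (∏ j ∈ Finset.univ.erase i, ((q j).den : ℚ)) * h4

theorem lemA {S : AddSubgroup (Fin 2 → ℂ) → Submodule ℝ M2} (hS : Funct S) (τ : M2)
    (x : Fin 7 → ℝ) (N : ℕ) (hN : 0 < N) (z : Fin 7 → ℤ) (hx : ∀ i, x i = z i / N)
    (Z : M2) (hZ : Z ∈ S (Lat (Hx τ x))) : Adx x * Z * (Adx x)ᵀ ∈ S (Lat τ) := by
  have hN' : (N : ℂ) ≠ 0 := by exact_mod_cast hN.ne'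
  have hxc : ∀ i, ((x i : ℝ) : ℂ) = z i / N := by
    intro i; rw [hx i]; push_cast; rfl
  have h1 : ∀ v ∈ Lat (Hx τ x), (((N : ℝ) ^ 3) • Adx x).mulVec v ∈ Lat τ := by
    rintro v ⟨a, b, hv⟩
    refine ⟨![N ^ 2 * (z 3 * a 0 - z 1 * a 1) +
        N * ((z 3 * z 4 - z 1 * z 5) * b 0 + (z 3 * z 5 - z 1 * z 6) * b 1),
      N ^ 2 * (- z 2 * a 0 + z 0 * a 1) +
        N * ((- z 2 * z 4 + z 0 * z 5) * b 0 + (- z 2 * z 5 + z 0 * z 6) * b 1)],
      ![(z 0 * z 3 - z 1 * z 2) * (z 0 * b 0 + z 2 * b 1),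
        (z 0 * z 3 - z 1 * z 2) * (z 1 * b 0 + z 3 * b 1)], fun i => ?_⟩
    have hv0 := hv 0
    have hv1 := hv 1
    fin_cases i
    · simp only [Fin.zero_eta, Matrix.mulVec, dotProduct, Fin.sum_univ_two, hv0, hv1]
      simp only [Hx, Adx, Ux, Bx, toC, Matrix.add_apply, Matrix.mul_apply, Fin.sum_univ_two,
        Matrix.smul_apply, Matrix.map_apply, Matrix.transpose_apply, Matrix.of_apply,
        Matrix.cons_val_zero, Matrix.cons_val_one, Matrix.cons_val', Matrix.cons_val_fin_one,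
        Complex.real_smul, Complex.ofReal_neg, hxc]
      push_cast
      field_simp
      ring
    · simp only [Fin.mk_one, Matrix.mulVec, dotProduct, Fin.sum_univ_two, hv0, hv1]
      simp only [Hx, Adx, Ux, Bx, toC, Matrix.add_apply, Matrix.mul_apply, Fin.sum_univ_two,
        Matrix.smul_apply, Matrix.map_apply, Matrix.transpose_apply, Matrix.of_apply,
        Matrix.cons_val_zero, Matrix.cons_val_one, Matrix.cons_val', Matrix.cons_val_fin_one,
        Complex.real_smul, Complex.ofReal_neg, hxc]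
      push_cast
      field_simp
      ring
  have h2 := hS _ _ _ h1 Z hZ
  have h3 : (Adx x).conjTranspose = (Adx x)ᵀ := by
    ext i j
    fin_cases i <;> fin_cases j <;> simp [Adx, toC, Matrix.conjTranspose_apply]
  have h4 : (((N : ℝ) ^ 3) • Adx x) * Z * (((N : ℝ) ^ 3) • Adx x).conjTranspose =
      ((N : ℝ) ^ 6) • (Adx x * Z * (Adx x)ᵀ) := by
    rw [Matrix.conjTranspose_smul, h3]
    simp only [star_trivial, Matrix.smul_mul, Matrix.mul_smul, smul_smul]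
    congr 1
    ring
  rw [h4] at h2
  have h5 : ((N : ℝ) ^ 6) ≠ 0 := by positivity
  have h6 := (S (Lat τ)).smul_mem (((N : ℝ) ^ 6)⁻¹) h2
  rw [smul_smul, inv_mul_cancel₀ h5, one_smul] at h6
  exact h6

theorem dense_rat : DenseRange (fun (q : Fin 7 → ℚ) (i : Fin 7) => (q i : ℝ)) :=
  DenseRange.piMap (f := fun _ => ((↑) : ℚ → ℝ)) fun _ => Rat.denseRange_cast

theorem lemB {S : AddSubgroup (Fin 2 → ℂ) → Submodule ℝ M2} (hS : Funct S)
    (Y R : M2R)
    (hR : ∀ V ∈ 𝓝 (toC R), ∀ᶠ τ in 𝓝 (Complex.I • toC Y), τ.IsSymm → ∃ Z ∈ S (Lat τ), Z ∈ V)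
    (τ : M2) (hτ : τ.IsSymm) (x : Fin 7 → ℝ) (hx : Hx τ x = Complex.I • toC Y) :
    Adx x * toC R * (Adx x)ᵀ ∈ S (Lat τ) := by
  have hcl : IsClosed (S (Lat τ) : Set M2) := Submodule.closed_of_finiteDimensional _
  rw [← SetLike.mem_coe, ← hcl.closure_eq, mem_closure_iff_nhds]
  intro O hO
  -- continuity of the conjugation
  have hcA : Continuous (Adx) := by
    unfold Adx toC
    refine continuous_matrix fun i j => ?_
    fin_cases i <;> fin_cases j <;> simp <;> fun_prop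
  have hcU : Continuous (fun x => toC (Ux x)) := by
    unfold Ux toC
    refine continuous_matrix fun i j => ?_
    fin_cases i <;> fin_cases j <;> simp <;> fun_prop
  have hcB : Continuous (fun x => toC (Bx x)) := by
    unfold Bx toC
    refine continuous_matrix fun i j => ?_
    fin_cases i <;> fin_cases j <;> simp <;> fun_prop
  have hcH : Continuous (Hx τ) := by
    unfold Hx
    exact ((hcU.matrix_mul continuous_const).matrix_mul hcU.matrix_transpose).add hcB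
  have hcG : Continuous (fun p : (Fin 7 → ℝ) × M2 => Adx p.1 * p.2 * (Adx p.1)ᵀ) :=
    ((hcA.comp continuous_fst).matrix_mul continuous_snd).matrix_mul
      (hcA.comp continuous_fst).matrix_transpose
  have hG : ∀ᶠ p in 𝓝 (x, toC R), Adx p.1 * p.2 * (Adx p.1)ᵀ ∈ O :=
    hcG.continuousAt.eventually_mem hO
  rw [nhds_prod_eq] at hG
  obtain ⟨pa, hpa, pb, hpb, hG⟩ := Filter.eventually_prod_iff.1 hG
  have h1 := hR {Z | pb Z} hpb
  rw [← hx] at h1
  have h2 : ∀ᶠ x' in 𝓝 x, (Hx τ x').IsSymm → ∃ Z ∈ S (Lat (Hx τ x')), pb Z :=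
    hcH.continuousAt.eventually h1
  have h3 := h2.and hpa
  obtain ⟨y, hy1, q, hq⟩ : ∃ y, ((Hx τ y).IsSymm → ∃ Z ∈ S (Lat (Hx τ y)), pb Z) ∧ pa y ∧
      ∃ q : Fin 7 → ℚ, (fun i => (q i : ℝ)) = y := by
    obtain ⟨y, hy, q, hq⟩ := (mem_closure_iff_nhds.1 (dense_rat x)) _ h3
    exact ⟨y, hy.1, hy.2, q, hq⟩
  obtain ⟨q, hq⟩ := hq
  have hsym : (Hx τ y).IsSymm := by
    unfold Matrix.IsSymm at hτ ⊢
    unfold Hx
    rw [Matrix.transpose_add, Matrix.transpose_mul, Matrix.transpose_mul, Matrix.transpose_transpose,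
      hτ, Matrix.mul_assoc]
    congr 1
    ext i j
    fin_cases i <;> fin_cases j <;> simp [toC, Bx]
  obtain ⟨Z, hZ, hZ2⟩ := hy1 hsym
  obtain ⟨N, z, hN, hz⟩ := common_den q
  refine ⟨Adx y * Z * (Adx y)ᵀ, ?_, ?_⟩
  · exact hG ‹_› hZ2
  · refine lemA hS τ y N hN z (fun i => ?_) Z hZ
    rw [← hq]
    show ((q i : ℚ) : ℝ) = z i / N
    rw [hz i]
    push_cast
    rfl

end Pool.Agent.H722.GRP
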