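import Pool.Agent.H722.GRP.A
set_option autoImplicit false

/-!
# S_GRP: all symmetric matrices
-/

open Complex Filter Topology Matrix

namespace Pool.Agent.H722.GRP

open Pool.Agent.H840.AS

/-- a Cholesky decomposition -/
theorem chol (Y : M2R) (hY : Y.PosDef) : ∃ T : M2R, T * Tᵀ = Y ∧ 0 < T.det := by
  have hs : Y 1 0 = Y 0 1 := by
    have := hY.1
    have h2 := congrFun (congrFun this 0) 1
    simpa [Matrix.conjTranspose_apply] using h2
  have ha : 0 < Y 0 0 := hY.diag_pos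
  have hd : 0 < Y.det := hY.det_pos
  rw [Matrix.det_fin_two, hs] at hd
  have h1 : Real.sqrt (Y 0 0) * Real.sqrt (Y 0 0) = Y 0 0 := Real.mul_self_sqrt ha.le
  have h1' : 0 < Real.sqrt (Y 0 0) := Real.sqrt_pos.2 ha
  have h2' : 0 < (Y 0 0 * Y 1 1 - Y 0 1 * Y 0 1) / Y 0 0 := div_pos hd ha
  have h2 := Real.mul_self_sqrt h2'.le
  have h3' := Real.sqrt_pos.2 h2'
  refine ⟨!![Real.sqrt (Y 0 0), 0; Y 0 1 / Real.sqrt (Y 0 0),
    Real.sqrt ((Y 0 0 * Y 1 1 - Y 0 1 * Y 0 1) / Y 0 0)], ?_, ?_⟩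
  · ext i j
    fin_cases i <;> fin_cases j
    · simp [Matrix.mul_apply, Fin.sum_univ_two, h1]
    · simp [Matrix.mul_apply, Fin.sum_univ_two]
      field_simp
    · simp [Matrix.mul_apply, Fin.sum_univ_two, hs]
      field_simp
    · simp only [Fin.mk_one, Matrix.mul_apply, Fin.sum_univ_two, Matrix.transpose_apply,
        Matrix.of_apply, Matrix.cons_val_one, Matrix.cons_val_zero, Matrix.cons_val',
        Matrix.cons_val_fin_one]
      rw [h2]
      have h4 : Y 0 1 / √(Y 0 0) * (Y 0 1 / √(Y 0 0)) = Y 0 1 * Y 0 1 / Y 0 0 := by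
        rw [div_mul_div_comm, h1]
      rw [h4]
      field_simp
      ring
  · rw [Matrix.det_fin_two]
    simp only [Matrix.of_apply, Matrix.cons_val_one, Matrix.cons_val_zero, Matrix.cons_val',
        Matrix.cons_val_fin_one, zero_mul, sub_zero]
    exact mul_pos h1' h3'

/-- two by two matrices, conversion -/
def xOf (U B : M2R) : Fin 7 → ℝ := ![U 0 0, U 0 1, U 1 0, U 1 1, B 0 0, B 0 1, B 1 1]

theorem Ux_xOf (U B : M2R) : Ux (xOf U B) = U := by
  ext i j; fin_cases i <;> fin_cases j <;> simp [Ux, xOf]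

theorem Bx_xOf (U B : M2R) (hB : B 1 0 = B 0 1) : Bx (xOf U B) = B := by
  ext i j; fin_cases i <;> fin_cases j <;> simp [Bx, xOf, hB]

theorem Adx_xOf (U B : M2R) : Adx (xOf U B) = toC U.adjugate := by
  rw [Matrix.adjugate_fin_two]
  ext i j; fin_cases i <;> fin_cases j <;> simp [Adx, xOf, toC]

theorem toC_mul (A B : M2R) : toC (A * B) = toC A * toC B := by
  unfold toC
  exact Matrix.map_mul (f := Complex.ofRealHom)

theorem toC_transpose (A : M2R) : toC Aᵀ = (toC A)ᵀ := by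
  unfold toC; rfl

theorem toC_add (A B : M2R) : toC (A + B) = toC A + toC B := by
  ext i j; simp [toC]

theorem toC_smul (r : ℝ) (A : M2R) : toC (r • A) = r • toC A := by
  ext i j; simp [toC]

theorem toC_neg (A : M2R) : toC (-A) = - toC A := by
  ext i j; simp [toC]

theorem decomp (τ : M2) : τ = toC (τ.map Complex.re) + Complex.I • toC (τ.map Complex.im) := by
  ext i j
  simp only [toC, Matrix.map_apply, Matrix.add_apply, Matrix.smul_apply, smul_eq_mul]
  rw [mul_comm]; exact (Complex.re_add_im _).symm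

/-- step (d) -/
theorem lemD {S : AddSubgroup (Fin 2 → ℂ) → Submodule ℝ M2} (hS : Funct S)
    (Y R : M2R)
    (hR : ∀ V ∈ 𝓝 (toC R), ∀ᶠ τ in 𝓝 (Complex.I • toC Y), τ.IsSymm → ∃ Z ∈ S (Lat τ), Z ∈ V)
    (τ : M2) (hτ : τ.IsSymm) (U : M2R) (hU : U * (τ.map Complex.im) * Uᵀ = Y) :
    toC (U.adjugate * R * U.adjugateᵀ) ∈ S (Lat τ) := by
  set X : M2R := τ.map Complex.re with hX
  set Y' : M2R := τ.map Complex.im with hY'
  have hXs : Xᵀ = X := by
    rw [hX]
    have : τᵀ = τ := hτ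
    conv_rhs => rw [← this]
    rfl
  set Bm : M2R := - (U * X * Uᵀ) with hB
  have hBs : Bm 1 0 = Bm 0 1 := by
    have : Bmᵀ = Bm := by
      rw [hB]
      simp only [Matrix.transpose_neg, Matrix.transpose_mul, Matrix.transpose_transpose, hXs,
        Matrix.mul_assoc]
    exact congrFun (congrFun this 0) 1
  have h1 : Hx τ (xOf U Bm) = Complex.I • toC Y := by
    unfold Hx
    rw [Ux_xOf, Bx_xOf _ _ hBs, ← toC_transpose]
    conv_lhs => rw [decomp τ, ← hX, ← hY']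
    rw [Matrix.mul_add, Matrix.add_mul, ← toC_mul, ← toC_mul, hB, toC_neg]
    rw [Matrix.mul_smul, Matrix.smul_mul, ← toC_mul, ← toC_mul, hU]
    abel
  have h2 := lemB hS Y R hR τ hτ _ h1
  rw [Adx_xOf] at h2
  rw [toC_mul, toC_mul, toC_transpose]
  exact h2

/-- the linear map `K ↦ A K Aᵀ` on real matrices followed by the inclusion -/
def conjLM (A : M2R) : M2R →ₗ[ℝ] M2 where
  toFun K := toC (A * K * Aᵀ)
  map_add' K L := by rw [Matrix.mul_add, Matrix.add_mul, toC_add]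
  map_smul' r K := by rw [Matrix.mul_smul, Matrix.smul_mul, toC_smul]; rfl

theorem rot_eq (K : M2R) (hK : K 1 0 = K 0 1) (c s : ℝ) :
    (!![c, s; -s, c] : M2R) * K * (!![c, s; -s, c] : M2R)ᵀ =
      !![c ^ 2 * K 0 0 + 2 * c * s * K 0 1 + s ^ 2 * K 1 1,
        (c ^ 2 - s ^ 2) * K 0 1 + c * s * (K 1 1 - K 0 0);
        (c ^ 2 - s ^ 2) * K 0 1 + c * s * (K 1 1 - K 0 0),
        s ^ 2 * K 0 0 - 2 * c * s * K 0 1 + c ^ 2 * K 1 1] := by
  have h : ∀ i j, ((!![c, s; -s, c] : M2R) * K * (!![c, s; -s, c] : M2R)ᵀ) i j =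
      ((!![c, s; -s, c] : M2R) i 0 * K 0 0 + (!![c, s; -s, c] : M2R) i 1 * K 1 0) *
        (!![c, s; -s, c] : M2R) j 0 +
      ((!![c, s; -s, c] : M2R) i 0 * K 0 1 + (!![c, s; -s, c] : M2R) i 1 * K 1 1) *
        (!![c, s; -s, c] : M2R) j 1 := by
    intro i j
    rw [Matrix.mul_apply, Fin.sum_univ_two, Matrix.mul_apply, Matrix.mul_apply, Fin.sum_univ_two,
      Fin.sum_univ_two, Matrix.transpose_apply, Matrix.transpose_apply]
  ext i j
  rw [h, hK]
  fin_cases i <;> fin_cases j <;> simp <;> ring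

/-- the linear algebra of step (e) -/
theorem lemE (S' : Submodule ℝ M2R) (K L : M2R) (hK : K.IsSymm) (hKd : K.det < 0)
    (hL : L.IsSymm) (hLt : 0 < L 0 0 + L 1 1)
    (hKS : ∀ c s : ℝ, c ^ 2 + s ^ 2 = 1 →
      (!![c, s; -s, c] : M2R) * K * (!![c, s; -s, c] : M2R)ᵀ ∈ S')
    (hLS : ∀ c s : ℝ, c ^ 2 + s ^ 2 = 1 →
      (!![c, s; -s, c] : M2R) * L * (!![c, s; -s, c] : M2R)ᵀ ∈ S')
    (Z : M2R) (hZ : Z.IsSymm) : Z ∈ S' := by
  have hK10 : K 1 0 = K 0 1 := congrFun (congrFun hK 0) 1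
  have hL10 : L 1 0 = L 0 1 := congrFun (congrFun hL 0) 1
  have hZ10 : Z 1 0 = Z 0 1 := congrFun (congrFun hZ 0) 1
  have hI : (1 : M2R) ∈ S' := by
    have h1 := S'.add_mem (hLS 1 0 (by norm_num)) (hLS 0 1 (by norm_num))
    rw [rot_eq L hL10, rot_eq L hL10] at h1
    have h2 := S'.smul_mem (L 0 0 + L 1 1)⁻¹ h1
    have hne := hLt.ne'
    convert h2 using 1
    ext i j
    fin_cases i <;> fin_cases j
    · simp; field_simp
    · simp
    · simp
    · simp; field_simp; ring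
  have hk := hKS 1 0 (by norm_num)
  have hk2 := hKS (3/5) (4/5) (by norm_num)
  rw [rot_eq K hK10] at hk hk2
  rw [Matrix.det_fin_two, hK10] at hKd
  set p := (K 0 0 - K 1 1) / 2 with hp
  set q := K 0 1 with hq
  have hn : 0 < p ^ 2 + q ^ 2 := by
    have h1 : p ^ 2 + q ^ 2 = ((K 0 0 + K 1 1)/2)^2 - (K 0 0 * K 1 1 - q * q) := by
      rw [hp]; ring
    rw [h1]; nlinarith [sq_nonneg ((K 0 0 + K 1 1)/2)]
  -- the traceless part
  have hA : (!![p, q; q, -p] : M2R) ∈ S' := by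
    have h2 := S'.sub_mem hk (S'.smul_mem ((K 0 0 + K 1 1) / 2) hI)
    convert h2 using 1
    ext i j
    fin_cases i <;> fin_cases j
    · simp [hp]; ring
    · simp
    · simp
    · simp [hp]; ring
  have hB : (!![q, -p; -p, -q] : M2R) ∈ S' := by
    have h2 := S'.smul_mem (25/24 : ℝ) (S'.add_mem
      (S'.sub_mem hk2 (S'.smul_mem ((K 0 0 + K 1 1) / 2) hI)) (S'.smul_mem (7/25 : ℝ) hA))
    convert h2 using 1
    ext i j
    fin_cases i <;> fin_cases j
    · simp [hp]; ring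
    · simp [hp]; ring
    · simp [hp]; ring
    · simp [hp]; ring
  have hE1 : (!![1, 0; 0, -1] : M2R) ∈ S' := by
    have h2 := S'.smul_mem (p ^ 2 + q ^ 2)⁻¹ (S'.add_mem (S'.smul_mem p hA) (S'.smul_mem q hB))
    have hne := hn.ne'
    convert h2 using 1
    ext i j
    fin_cases i <;> fin_cases j
    · simp; field_simp
    · simp; right; ring
    · simp; right; ring
    · simp; field_simp; ring
  have hE2 : (!![0, 1; 1, 0] : M2R) ∈ S' := by
    have h2 := S'.smul_mem (p ^ 2 + q ^ 2)⁻¹ (S'.sub_mem (S'.smul_mem q hA) (S'.smul_mem p hB))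
    have hne := hn.ne'
    convert h2 using 1
    ext i j
    fin_cases i <;> fin_cases j
    · simp; right; ring
    · simp; field_simp; ring
    · simp; field_simp; ring
    · simp; right; ring
  have h3 := S'.add_mem (S'.add_mem (S'.smul_mem ((Z 0 0 + Z 1 1)/2) hI)
    (S'.smul_mem ((Z 0 0 - Z 1 1)/2) hE1)) (S'.smul_mem (Z 0 1) hE2)
  convert h3 using 1
  ext i j
  fin_cases i <;> fin_cases j
  · simp; ring
  · simp
  · simp [hZ10]
  · simp; ring

end Pool.Agent.H722.GRP
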