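import Pool.Agent.H722.GRP.B
set_option autoImplicit false

/-!
# S_GRP
-/

open Complex Filter Topology Matrix

namespace Pool.Agent.H722.GRP

open Pool.Agent.H840.AS

/-- the hypothesis near `i Y` -/
def Hyp (S : AddSubgroup (Fin 2 → ℂ) → Submodule ℝ M2) (Y R : M2R) : Prop :=
  ∀ V ∈ 𝓝 (toC R), ∀ᶠ τ in 𝓝 (Complex.I • toC Y), τ.IsSymm → ∃ Z ∈ S (Lat τ), Z ∈ V

theorem posDef_symm {Y : M2R} (hY : Y.PosDef) : Yᵀ = Y := by
  have h1 : Yᴴ = Y := hY.1
  have h2 : Yᴴ = Yᵀ := by ext i j; simp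
  rw [← h2, h1]

theorem real_symm {S : AddSubgroup (Fin 2 → ℂ) → Submodule ℝ M2} (hS : Funct S)
    (Y R P : M2R) (hY : Y.PosDef) (hR : R.IsSymm) (hRd : R.det < 0) (hP : P.PosDef)
    (hHR : Hyp S Y R) (hHP : Hyp S Y P)
    (τ : M2) (hτ : τ.IsSymm) (hτp : (τ.map Complex.im).PosDef) (Z : M2R) (hZ : Z.IsSymm) :
    toC Z ∈ S (Lat τ) := by
  obtain ⟨T, hT, hTd⟩ := chol Y hY
  obtain ⟨V, hV, hVd⟩ := chol _ hτp
  have hne := hVd.ne'
  have key : ∀ K : M2R, Hyp S Y K → ∀ c s : ℝ, c ^ 2 + s ^ 2 = 1 →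
      (!![c, s; -s, c] : M2R) * (T.adjugate * K * T.adjugateᵀ) * (!![c, s; -s, c] : M2R)ᵀ ∈
        (S (Lat τ)).comap (conjLM V) := by
    intro K hK c s hcs
    set O : M2R := !![c, -s; s, c] with hO
    have hOa : O.adjugate = !![c, s; -s, c] := by
      rw [hO, Matrix.adjugate_fin_two_of]; simp
    have hOO : O * Oᵀ = 1 := by
      ext i j
      rw [Matrix.mul_apply, Fin.sum_univ_two]
      fin_cases i <;> fin_cases j
      · simp [hO]; linear_combination hcs
      · simp [hO]; ring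
      · simp [hO]; ring
      · simp [hO]; linear_combination hcs
    set U : M2R := (V.det)⁻¹ • (T * O * V.adjugate) with hU
    have hVa : V.adjugate * V = V.det • (1 : M2R) := Matrix.adjugate_mul V
    have hVaT : Vᵀ * V.adjugateᵀ = V.det • (1 : M2R) := by
      rw [← Matrix.transpose_mul, hVa, Matrix.transpose_smul, Matrix.transpose_one]
    have h1 : U * (τ.map Complex.im) * Uᵀ = Y := by
      rw [← hV, hU, Matrix.transpose_smul, Matrix.transpose_mul, Matrix.transpose_mul]
      simp only [Matrix.smul_mul, Matrix.mul_smul, smul_smul]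
      have h2 : T * O * V.adjugate * (V * Vᵀ) * (V.adjugateᵀ * (Oᵀ * Tᵀ)) =
          T * O * (V.adjugate * V) * (Vᵀ * V.adjugateᵀ) * (Oᵀ * Tᵀ) := by
        simp only [Matrix.mul_assoc]
      rw [h2, hVa, hVaT]
      simp only [Matrix.mul_smul, Matrix.smul_mul, smul_smul, Matrix.mul_one]
      have h3 : T * O * (Oᵀ * Tᵀ) = Y := by
        rw [show T * O * (Oᵀ * Tᵀ) = T * (O * Oᵀ) * Tᵀ by simp only [Matrix.mul_assoc], hOO,
          Matrix.mul_one, hT]
      rw [h3]
      have h4 : (V.det)⁻¹ * (V.det)⁻¹ * (V.det * V.det) = 1 := by field_simp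
      rw [h4, one_smul]
    have h2 := lemD hS Y K hK τ hτ U h1
    have h3 : U.adjugate = (V.det)⁻¹ • (V * !![c, s; -s, c] * T.adjugate) := by
      rw [hU, Matrix.adjugate_smul, Matrix.adjugate_mul_distrib, Matrix.adjugate_mul_distrib,
        Matrix.adjugate_adjugate' V, hOa]
      simp [Matrix.mul_assoc]
    show toC (V * ((!![c, s; -s, c] : M2R) * (T.adjugate * K * T.adjugateᵀ) *
      (!![c, s; -s, c] : M2R)ᵀ) * Vᵀ) ∈ S (Lat τ)
    have h4 : V * ((!![c, s; -s, c] : M2R) * (T.adjugate * K * T.adjugateᵀ) *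
      (!![c, s; -s, c] : M2R)ᵀ) * Vᵀ = (V.det ^ 2) • (U.adjugate * K * U.adjugateᵀ) := by
      rw [h3, Matrix.transpose_smul, Matrix.transpose_mul, Matrix.transpose_mul]
      simp only [Matrix.smul_mul, Matrix.mul_smul, smul_smul]
      have h5 : V.det ^ 2 * ((V.det)⁻¹ * (V.det)⁻¹) = 1 := by field_simp
      rw [h5, one_smul]
      simp only [Matrix.mul_assoc]
    rw [h4, toC_smul]
    exact (S (Lat τ)).smul_mem _ h2
  have hTa : T.adjugate.det = T.det := by
    rw [Matrix.det_adjugate]; simp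
  have hKs : (T.adjugate * R * T.adjugateᵀ).IsSymm := by
    unfold Matrix.IsSymm at hR ⊢
    rw [Matrix.transpose_mul, Matrix.transpose_mul, Matrix.transpose_transpose, hR,
      Matrix.mul_assoc]
  have hKd : (T.adjugate * R * T.adjugateᵀ).det < 0 := by
    rw [Matrix.det_mul, Matrix.det_mul, Matrix.det_transpose, hTa]
    have : T.det * R.det * T.det = T.det ^ 2 * R.det := by ring
    rw [this]
    exact mul_neg_of_pos_of_neg (by positivity) hRd
  have hLp : (T.adjugate * P * T.adjugateᵀ).PosDef := by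
    have h1 : Function.Injective T.adjugate.vecMul := by
      rw [Matrix.vecMul_injective_iff_isUnit, Matrix.isUnit_iff_isUnit_det, hTa]
      exact hTd.ne'.isUnit
    have h2 := hP.mul_mul_conjTranspose_same h1
    have h3 : T.adjugateᴴ = T.adjugateᵀ := by
      ext i j; simp
    rwa [h3] at h2
  -- the target
  have hVa : V * V.adjugate = V.det • (1 : M2R) := Matrix.mul_adjugate V
  have hVaT : V.adjugateᵀ * Vᵀ = V.det • (1 : M2R) := by
    rw [← Matrix.transpose_mul, hVa, Matrix.transpose_smul, Matrix.transpose_one]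
  have hfin := lemE ((S (Lat τ)).comap (conjLM V)) _ _ hKs hKd
    (by exact posDef_symm hLp) (add_pos hLp.diag_pos hLp.diag_pos)
    (key R hHR) (key P hHP) ((V.det ^ 2)⁻¹ • (V.adjugate * Z * V.adjugateᵀ)) (by
      unfold Matrix.IsSymm at hZ ⊢
      rw [Matrix.transpose_smul, Matrix.transpose_mul, Matrix.transpose_mul,
        Matrix.transpose_transpose, hZ, Matrix.mul_assoc])
  have h7 : toC (V * ((V.det ^ 2)⁻¹ • (V.adjugate * Z * V.adjugateᵀ)) * Vᵀ) ∈ S (Lat τ) := hfin
  have h8 : V * ((V.det ^ 2)⁻¹ • (V.adjugate * Z * V.adjugateᵀ)) * Vᵀ = Z := by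
    rw [Matrix.mul_smul, Matrix.smul_mul]
    have h9 : V * (V.adjugate * Z * V.adjugateᵀ) * Vᵀ =
        (V * V.adjugate) * Z * (V.adjugateᵀ * Vᵀ) := by simp only [Matrix.mul_assoc]
    rw [h9, hVa, hVaT]
    simp only [Matrix.mul_smul, Matrix.smul_mul, smul_smul, Matrix.mul_one, Matrix.one_mul]
    have h10 : (V.det ^ 2)⁻¹ * (V.det * V.det) = 1 := by field_simp
    rw [h10, one_smul]
  rwa [h8] at h7

/-- two by two positive definite matrices -/
theorem posDef_two (A : M2R) (hs : A 1 0 = A 0 1) (ha : 0 < A 0 0)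
    (hd : 0 < A 0 0 * A 1 1 - A 0 1 * A 0 1) : A.PosDef := by
  refine Matrix.PosDef.of_dotProduct_mulVec_pos ?_ fun x hx => ?_
  · ext i j
    fin_cases i <;> fin_cases j <;> simp [Matrix.conjTranspose_apply, hs]
  · simp only [star_trivial, dotProduct, Matrix.mulVec, Fin.sum_univ_two, hs]
    have hne := ha.ne'
    have h1 : x 0 * (A 0 0 * x 0 + A 0 1 * x 1) + x 1 * (A 0 1 * x 0 + A 1 1 * x 1) =
        ((A 0 0 * x 0 + A 0 1 * x 1) ^ 2 + (A 0 0 * A 1 1 - A 0 1 * A 0 1) * x 1 ^ 2) /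
          A 0 0 := by
      field_simp; ring
    rw [h1]
    refine div_pos ?_ ha
    by_cases hx1 : x 1 = 0
    · have hx0 : x 0 ≠ 0 := by
        intro h0; apply hx; ext i; fin_cases i
        · exact h0
        · exact hx1
      rw [hx1]
      have : 0 < (A 0 0 * x 0) ^ 2 := by positivity
      simpa using this
    · have : 0 < (A 0 0 * A 1 1 - A 0 1 * A 0 1) * x 1 ^ 2 := by positivity
      nlinarith [sq_nonneg (A 0 0 * x 0 + A 0 1 * x 1)]

/-- the partial inversion -/
noncomputable def pinv (τ : M2) : M2 :=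
  !![-(τ 0 0)⁻¹, τ 0 1 * (τ 0 0)⁻¹; τ 0 1 * (τ 0 0)⁻¹, τ 1 1 - τ 0 1 ^ 2 * (τ 0 0)⁻¹]

theorem pinv_symm (τ : M2) : (pinv τ).IsSymm := by
  unfold Matrix.IsSymm
  ext i j
  fin_cases i <;> fin_cases j <;> simp [pinv]

theorem pinv_posDef (τ : M2) (hτ : τ.IsSymm) (hp : (τ.map Complex.im).PosDef) :
    ((pinv τ).map Complex.im).PosDef := by
  have h10 : τ 1 0 = τ 0 1 := congrFun (congrFun hτ 0) 1
  have ha : 0 < (τ 0 0).im := hp.diag_pos (i := 0)
  have hd := hp.det_pos
  rw [Matrix.det_fin_two] at hd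
  simp only [Matrix.map_apply, h10] at hd
  set t1 := (τ 0 0).re with ht1
  set t2 := (τ 0 0).im with ht2
  set m1 := (τ 0 1).re with hm1
  set m2 := (τ 0 1).im with hm2
  set r1 := (τ 1 1).re with hr1
  set r2 := (τ 1 1).im with hr2
  have hn : 0 < t1 * t1 + t2 * t2 := by nlinarith [mul_self_nonneg t1, mul_pos ha ha]
  have e00 : ((pinv τ) 0 0).im = t2 / (t1 * t1 + t2 * t2) := by
    simp only [pinv, Matrix.of_apply, Matrix.cons_val_zero, Matrix.cons_val', Matrix.cons_val_fin_one,
      Complex.neg_im, Complex.inv_im, Complex.normSq_apply]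
    rw [← ht1, ← ht2]; ring
  have e01 : ((pinv τ) 0 1).im = (m2 * t1 - m1 * t2) / (t1 * t1 + t2 * t2) := by
    simp only [pinv, Matrix.of_apply, Matrix.cons_val_zero, Matrix.cons_val_one,
      Matrix.cons_val', Matrix.cons_val_fin_one,
      Complex.mul_im, Complex.inv_im, Complex.inv_re, Complex.normSq_apply]
    rw [← ht1, ← ht2, ← hm1, ← hm2]; ring
  have e10 : ((pinv τ) 1 0).im = (m2 * t1 - m1 * t2) / (t1 * t1 + t2 * t2) := by
    rw [← e01]; simp [pinv]
  have e11 : ((pinv τ) 1 1).im =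
      r2 - (2 * m1 * m2 * t1 - (m1 ^ 2 - m2 ^ 2) * t2) / (t1 * t1 + t2 * t2) := by
    simp only [pinv, Matrix.of_apply, Matrix.cons_val_zero, Matrix.cons_val_one,
      Matrix.cons_val', Matrix.cons_val_fin_one, pow_two,
      Complex.mul_im, Complex.mul_re, Complex.inv_im, Complex.inv_re, Complex.normSq_apply,
      Complex.sub_im]
    rw [← ht1, ← ht2, ← hm1, ← hm2, ← hr2]; ring
  refine posDef_two _ ?_ ?_ ?_
  · simp only [Matrix.map_apply]; rw [e10, e01]
  · simp only [Matrix.map_apply]; rw [e00]; positivity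
  · simp only [Matrix.map_apply]; rw [e00, e01, e11]
    have hne := hn.ne'
    have h1 : t2 / (t1 * t1 + t2 * t2) *
        (r2 - (2 * m1 * m2 * t1 - (m1 ^ 2 - m2 ^ 2) * t2) / (t1 * t1 + t2 * t2)) -
        (m2 * t1 - m1 * t2) / (t1 * t1 + t2 * t2) * ((m2 * t1 - m1 * t2) / (t1 * t1 + t2 * t2)) =
        (t2 * r2 - m2 * m2) / (t1 * t1 + t2 * t2) := by
      field_simp
      ring
    rw [h1]
    exact div_pos hd hn

theorem s_GRP : Pool.Agent.H840.AS.S_GRP := by
  intro S hS Y R P hY hR hRd hP hHR hHP τ hτ hτp Z hZ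
  have hS' : Funct S := hS
  have hall : ∀ τ : M2, τ.IsSymm → (τ.map Complex.im).PosDef → ∀ Z : M2R, Z.IsSymm →
      toC Z ∈ S (Lat τ) := fun τ hτ hτp Z hZ =>
    real_symm hS' Y R P hY hR hRd hP hHR hHP τ hτ hτp Z hZ
  have h10 : τ 1 0 = τ 0 1 := congrFun (congrFun hτ 0) 1
  have ha : 0 < (τ 0 0).im := hτp.diag_pos (i := 0)
  have hne : τ 0 0 ≠ 0 := by
    intro h; rw [h] at ha; simp at ha
  -- the matrix `g`
  set g : M2 := !![τ 0 0, 0; τ 0 1, 1] with hg
  have hgL : ∀ v ∈ Lat (pinv τ), g.mulVec v ∈ Lat τ := by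
    rintro v ⟨a, b, hv⟩
    refine ⟨![- b 0, a 1], ![a 0, b 1], fun i => ?_⟩
    have hv0 := hv 0
    have hv1 := hv 1
    fin_cases i
    · simp only [Fin.zero_eta, Matrix.mulVec, dotProduct, Fin.sum_univ_two, hv0, hv1]
      simp only [hg, pinv, Matrix.of_apply,
        Matrix.cons_val_zero, Matrix.cons_val_one, Matrix.cons_val', Matrix.cons_val_fin_one]
      push_cast
      field_simp
      ring
    · simp only [Fin.mk_one, Matrix.mulVec, dotProduct, Fin.sum_univ_two, hv0, hv1]
      simp only [hg, pinv, Matrix.of_apply, h10,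
        Matrix.cons_val_zero, Matrix.cons_val_one, Matrix.cons_val', Matrix.cons_val_fin_one]
      push_cast
      field_simp
      ring
  have h1 := hS _ _ g hgL _ (hall _ (pinv_symm τ) (pinv_posDef τ hτ hτp) !![0, 1; 1, 0] (by
    unfold Matrix.IsSymm; ext i j; fin_cases i <;> fin_cases j <;> simp))
  -- subtract the real part
  have h2 := hall τ hτ hτp !![0, (τ 0 0).re; (τ 0 0).re, 2 * (τ 0 1).re] (by
    unfold Matrix.IsSymm; ext i j; fin_cases i <;> fin_cases j <;> simp)
  have h3 := (S (Lat τ)).smul_mem ((τ 0 0).im)⁻¹ ((S (Lat τ)).sub_mem h1 h2)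
  have hJ : (!![0, Complex.I; -Complex.I, 0] : M2) ∈ S (Lat τ) := by
    convert h3 using 1
    have hane := ha.ne'
    have hanc : (((τ 0 0).im : ℝ) : ℂ) ≠ 0 := by exact_mod_cast hane
    have hre := Complex.re_add_im (τ 0 0)
    have hcj : (starRingEnd ℂ) (τ 0 0) = (τ 0 0).re - (τ 0 0).im * Complex.I := by
      apply Complex.ext <;> simp
    have hm : τ 0 1 + (starRingEnd ℂ) (τ 0 1) = 2 * (τ 0 1).re := by
      apply Complex.ext <;> simp; ring
    ext i j
    fin_cases i <;> fin_cases j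
    · simp only [hg, toC, Fin.zero_eta, Matrix.smul_apply, Matrix.sub_apply,
        Matrix.mul_apply, Fin.sum_univ_two,
        Matrix.conjTranspose_apply, Matrix.of_apply, Matrix.map_apply,
        Matrix.cons_val_zero, Matrix.cons_val_one, Matrix.cons_val', Matrix.cons_val_fin_one,
        Complex.ofReal_zero, Complex.ofReal_one, star_zero]
      simp
    · simp only [hg, toC, Fin.zero_eta, Fin.mk_one, Matrix.smul_apply, Matrix.sub_apply,
        Matrix.mul_apply, Fin.sum_univ_two,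
        Matrix.conjTranspose_apply, Matrix.of_apply, Matrix.map_apply,
        Matrix.cons_val_zero, Matrix.cons_val_one, Matrix.cons_val', Matrix.cons_val_fin_one,
        Complex.real_smul, Complex.ofReal_inv, Complex.star_def, map_zero, map_one,
        Complex.ofReal_zero, Complex.ofReal_one]
      field_simp
      linear_combination hre
    · simp only [hg, toC, Fin.zero_eta, Fin.mk_one, Matrix.smul_apply, Matrix.sub_apply,
        Matrix.mul_apply, Fin.sum_univ_two,
        Matrix.conjTranspose_apply, Matrix.of_apply, Matrix.map_apply,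
        Matrix.cons_val_zero, Matrix.cons_val_one, Matrix.cons_val', Matrix.cons_val_fin_one,
        Complex.real_smul, Complex.ofReal_inv, Complex.star_def, map_zero, map_one,
        Complex.ofReal_zero, Complex.ofReal_one]
      rw [hcj]
      field_simp
      ring
    · simp only [hg, toC, Fin.zero_eta, Fin.mk_one, Matrix.smul_apply, Matrix.sub_apply,
        Matrix.mul_apply, Fin.sum_univ_two,
        Matrix.conjTranspose_apply, Matrix.of_apply, Matrix.map_apply,
        Matrix.cons_val_zero, Matrix.cons_val_one, Matrix.cons_val', Matrix.cons_val_fin_one,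
        Complex.real_smul, Complex.ofReal_inv, Complex.star_def, map_zero, map_one,
        Complex.ofReal_zero, Complex.ofReal_one, Complex.ofReal_mul, Complex.ofReal_ofNat]
      have hfin : ((τ 0 1 * 0 + 1 * 1) * (starRingEnd ℂ) (τ 0 1) + (τ 0 1 * 1 + 1 * 0) * 1 -
          2 * ((τ 0 1).re : ℂ)) = 0 := by linear_combination hm
      first
        | rw [hfin, mul_zero]
        | (field_simp; linear_combination -hm)
        | (field_simp; linear_combination hm)
  -- conclusion
  have hZ00 : (starRingEnd ℂ) (Z 0 0) = Z 0 0 := congrFun (congrFun hZ 0) 0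
  have hZ11 : (starRingEnd ℂ) (Z 1 1) = Z 1 1 := congrFun (congrFun hZ 1) 1
  have hZ10 : (starRingEnd ℂ) (Z 0 1) = Z 1 0 := congrFun (congrFun hZ 1) 0
  have h5 := hall τ hτ hτp !![(Z 0 0).re, (Z 0 1).re; (Z 0 1).re, (Z 1 1).re] (by
    unfold Matrix.IsSymm; ext i j; fin_cases i <;> fin_cases j <;> simp)
  have h6 := (S (Lat τ)).add_mem h5 ((S (Lat τ)).smul_mem (Z 0 1).im hJ)
  convert h6 using 1
  ext i j
  fin_cases i <;> fin_cases j
  · apply Complex.ext
    · simp [toC]
    · have := congrArg Complex.im hZ00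
      simp at this
      simp [toC]; linarith
  · apply Complex.ext
    · simp [toC]
    · simp [toC]
  · rw [Fin.mk_one, Fin.zero_eta, ← hZ10]
    apply Complex.ext
    · simp [toC]
    · simp [toC]
  · apply Complex.ext
    · simp [toC]
    · have := congrArg Complex.im hZ11
      simp at this
      simp [toC]; linarith

end Pool.Agent.H722.GRP
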